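import Mathlib

/-!
Labelled coupon collector: for fixed other rows, the chance that a uniform row of size `k` completes
the separation is nondecreasing in `k ≤ n / 2`.
-/

set_option autoImplicit false
open Finset

namespace Pool.Agent.Q211.Lab

variable {C : Type*} [Fintype C] [DecidableEq C]

/-- The rows in `B` cover all coupons and separate any two coupons. -/
def Sep (B : Finset (Finset C)) : Prop :=
  (∀ c, ∃ s ∈ B, c ∈ s) ∧ ∀ x y : C, x ≠ y → ∃ s ∈ B, ¬(x ∈ s ↔ y ∈ s)

/-- Coupons not separated by `B`. -/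
def Tw (B : Finset (Finset C)) (x y : C) : Prop := ∀ s ∈ B, (x ∈ s ↔ y ∈ s)

theorem sep_insert_iff (B : Finset (Finset C)) (S : Finset C) :
    Sep (insert S B) ↔ (∀ x, (∀ s ∈ B, x ∉ s) → x ∈ S) ∧
      ∀ x y : C, x ≠ y → Tw B x y → ¬(x ∈ S ↔ y ∈ S) := by
  constructor
  · rintro ⟨h1, h2⟩
    refine ⟨fun x hx => ?_, fun x y hxy ht => ?_⟩
    · obtain ⟨s, hs, hxs⟩ := h1 x
      rcases mem_insert.1 hs with rfl | hs
      · exact hxs
      · exact absurd hxs (hx s hs)
    · obtain ⟨s, hs, hxs⟩ := h2 x y hxy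
      rcases mem_insert.1 hs with rfl | hs
      · exact hxs
      · exact absurd (ht s hs) hxs
  · rintro ⟨h1, h2⟩
    refine ⟨fun x => ?_, fun x y hxy => ?_⟩
    · by_cases hx : ∀ s ∈ B, x ∉ s
      · exact ⟨S, mem_insert_self _ _, h1 x hx⟩
      · push Not at hx
        obtain ⟨s, hs, hxs⟩ := hx
        exact ⟨s, mem_insert_of_mem hs, hxs⟩
    · by_cases ht : Tw B x y
      · exact ⟨S, mem_insert_self _ _, h2 x y hxy ht⟩
      · unfold Tw at ht
        push Not at ht
        obtain ⟨s, hs, hxs⟩ := ht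
        refine ⟨s, mem_insert_of_mem hs, ?_⟩
        rcases hxs with ⟨a, b⟩ | ⟨a, b⟩
        · exact fun h => b (h.1 a)
        · exact fun h => a (h.2 b)

open Classical in
/-- Coupons having a twin. -/
noncomputable def D (B : Finset (Finset C)) : Finset C :=
  univ.filter fun x => ∃ y, y ≠ x ∧ Tw B x y

theorem mem_D {B : Finset (Finset C)} {x : C} : x ∈ D B ↔ ∃ y, y ≠ x ∧ Tw B x y := by
  simp [D]

theorem Tw.symm {B : Finset (Finset C)} {x y : C} (h : Tw B x y) : Tw B y x :=
  fun s hs => (h s hs).symm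

theorem Tw.trans {B : Finset (Finset C)} {x y z : C} (h : Tw B x y) (h' : Tw B y z) : Tw B x z :=
  fun s hs => (h s hs).trans (h' s hs)

theorem card_half {B : Finset (Finset C)} {S : Finset C} (h : Sep (insert S B)) :
    #(D B ∩ S) = #(D B \ S) := by
  classical
  obtain ⟨-, h2⟩ := (sep_insert_iff B S).1 h
  have hch : ∀ x ∈ D B, ∃ y, y ≠ x ∧ Tw B x y := fun x hx => mem_D.1 hx
  choose! f hf1 hf2 using hch
  have hfD : ∀ x ∈ D B, f x ∈ D B := fun x hx => mem_D.2 ⟨x, (hf1 x hx).symm, (hf2 x hx).symm⟩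
  have hne : ∀ x ∈ D B, ¬(x ∈ S ↔ f x ∈ S) := fun x hx => h2 x (f x) (hf1 x hx).symm (hf2 x hx)
  apply le_antisymm
  · refine card_le_card_of_injOn f (fun x hx => ?_) fun x hx y hy hxy => ?_
    · have hx' := mem_inter.1 (mem_coe.1 hx)
      refine mem_coe.2 (mem_sdiff.2 ⟨hfD x hx'.1, fun hh => hne x hx'.1 ⟨fun _ => hh, fun _ => hx'.2⟩⟩)
    · have hx' := mem_inter.1 (mem_coe.1 hx)
      have hy' := mem_inter.1 (mem_coe.1 hy)
      by_contra hne'
      have ht : Tw B x y := (hf2 x hx'.1).trans (by rw [hxy]; exact (hf2 y hy'.1).symm)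
      exact h2 x y hne' ht ⟨fun _ => hy'.2, fun _ => hx'.2⟩
  · refine card_le_card_of_injOn f (fun x hx => ?_) fun x hx y hy hxy => ?_
    · have hx' := mem_sdiff.1 (mem_coe.1 hx)
      refine mem_coe.2 (mem_inter.2 ⟨hfD x hx'.1, ?_⟩)
      by_contra hh
      exact hne x hx'.1 ⟨fun a => absurd a hx'.2, fun a => absurd a hh⟩
    · have hx' := mem_sdiff.1 (mem_coe.1 hx)
      have hy' := mem_sdiff.1 (mem_coe.1 hy)
      by_contra hne'
      have ht : Tw B x y := (hf2 x hx'.1).trans (by rw [hxy]; exact (hf2 y hy'.1).symm)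
      exact h2 x y hne' ht ⟨fun a => absurd a hx'.2, fun a => absurd a hy'.2⟩

open Classical in
/-- Rows of size `k` that complete the separation. -/
noncomputable def G (B : Finset (Finset C)) (k : ℕ) : Finset (Finset C) :=
  (powersetCard k univ).filter fun S => Sep (insert S B)

theorem mem_G {B : Finset (Finset C)} {k : ℕ} {S : Finset C} :
    S ∈ G B k ↔ #S = k ∧ Sep (insert S B) := by
  simp [G, mem_powersetCard]

theorem two_mul_half {B : Finset (Finset C)} {S : Finset C} (h : Sep (insert S B)) :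
    #(D B ∩ S) = #(D B) / 2 ∧ #(D B \ S) = #(D B) / 2 := by
  have h1 := card_half h
  have h2 := card_inter_add_card_sdiff (D B) S
  omega

theorem step (B : Finset (Finset C)) {k : ℕ} (hk : 2 * (k + 1) ≤ Fintype.card C) :
    #(G B k) * (Fintype.card C - k) ≤ #(G B (k + 1)) * (k + 1) := by
  classical
  rcases (G B k).eq_empty_or_nonempty with h0 | ⟨S₀, hS₀⟩
  · rw [h0]; simp
  set n := Fintype.card C with hn
  set m := #(D B) / 2 with hm
  have hmk : m ≤ k := by
    obtain ⟨h1, h2⟩ := mem_G.1 hS₀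
    rw [hm, ← (two_mul_half h2).1, ← h1]
    exact card_le_card inter_subset_right
  have key : #(G B k) * (n - k - m) ≤ #(G B (k + 1)) * (k + 1 - m) := by
    refine card_mul_le_card_mul (fun S S' : Finset C => S ⊆ S') (fun S hS => ?_) fun S' hS' => ?_
    · obtain ⟨h1, h2⟩ := mem_G.1 hS
      have hsub : ((univ \ S) \ D B).image (fun x => insert x S) ⊆
          (G B (k + 1)).bipartiteAbove (fun S S' : Finset C => S ⊆ S') S := by
        intro T hT
        obtain ⟨x, hx, rfl⟩ := mem_image.1 hT
        obtain ⟨hx1, hxD⟩ := mem_sdiff.1 hx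
        have hxS : x ∉ S := (mem_sdiff.1 hx1).2
        refine (mem_bipartiteAbove _).2 ⟨mem_G.2 ⟨by rw [card_insert_of_notMem hxS, h1], ?_⟩,
          subset_insert _ _⟩
        obtain ⟨g1, g2⟩ := (sep_insert_iff B S).1 h2
        refine (sep_insert_iff B _).2 ⟨fun y hy => mem_insert_of_mem (g1 y hy), fun a b hab ht => ?_⟩
        have hax : a ≠ x := fun h => hxD (mem_D.2 ⟨b, by rw [← h]; exact hab.symm, by rw [← h]; exact ht⟩)
        have hbx : b ≠ x := fun h => hxD (mem_D.2 ⟨a, by rw [← h]; exact hab, by rw [← h]; exact ht.symm⟩)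
        have := g2 a b hab ht
        simpa [mem_insert, hax, hbx] using this
      refine le_trans (le_of_eq ?_) (card_le_card hsub)
      rw [card_image_of_injOn]
      · have e1 : #((univ \ S) \ D B) = #(univ \ S) - #(D B \ S) := by
          have : (univ \ S) \ D B = (univ \ S) \ (D B \ S) := by
            ext x; simp only [mem_sdiff, mem_univ, true_and]; tauto
          rw [this, card_sdiff_of_subset]
          intro x hx
          exact mem_sdiff.2 ⟨mem_univ _, (mem_sdiff.1 hx).2⟩
        rw [e1, (two_mul_half h2).2, card_sdiff_of_subset (subset_univ S), card_univ, h1]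
      · intro x hx y hy hxy
        have hxS : x ∉ S := (mem_sdiff.1 (mem_sdiff.1 (mem_coe.1 hx)).1).2
        have : x ∈ insert y S := by
          have h3 : insert x S = insert y S := hxy
          rw [← h3]; exact mem_insert_self _ _
        rcases mem_insert.1 this with h | h
        · exact h
        · exact absurd h hxS
    · obtain ⟨h1, h2⟩ := mem_G.1 hS'
      have hsub : (G B k).bipartiteBelow (fun S S' : Finset C => S ⊆ S') S' ⊆
          (S' \ D B).image (fun x => S'.erase x) := by
        intro S hS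
        obtain ⟨hSG, hSS⟩ := (mem_bipartiteBelow _).1 hS
        obtain ⟨g1, g2⟩ := mem_G.1 hSG
        have hc : #(S' \ S) = 1 := by rw [card_sdiff_of_subset hSS, h1, g1]; omega
        obtain ⟨x, hx⟩ := card_eq_one.1 hc
        have hxm : x ∈ S' \ S := by rw [hx]; exact mem_singleton_self x
        obtain ⟨hxS', hxS⟩ := mem_sdiff.1 hxm
        have hSe : S = S'.erase x := by
          refine eq_of_subset_of_card_le (fun y hy => mem_erase.2 ⟨?_, hSS hy⟩) ?_
          · rintro rfl; exact hxS hy
          · rw [card_erase_of_mem hxS', h1, g1]; omega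
        refine mem_image.2 ⟨x, mem_sdiff.2 ⟨hxS', fun hxD => ?_⟩, hSe.symm⟩
        obtain ⟨y, hyx, ht⟩ := mem_D.1 hxD
        have a1 := ((sep_insert_iff B S').1 h2).2 x y hyx.symm ht
        have a2 := ((sep_insert_iff B S).1 g2).2 x y hyx.symm ht
        have hyS' : y ∉ S' := fun h => a1 ⟨fun _ => h, fun _ => hxS'⟩
        exact a2 ⟨fun h => absurd h hxS, fun h => absurd (hSS h) hyS'⟩
      refine (card_le_card hsub).trans (card_image_le.trans ?_)
      have e1 : #(S' \ D B) = #S' - #(D B ∩ S') := by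
        rw [inter_comm, ← card_sdiff_add_card_inter S' (D B)]; omega
      rw [e1, (two_mul_half h2).1, h1]
  -- arithmetic
  obtain ⟨r, hr⟩ : ∃ r, n = 2 * (k + 1) + r := ⟨n - 2 * (k + 1), by omega⟩
  obtain ⟨j, hj⟩ : ∃ j, k = m + j := ⟨k - m, by omega⟩
  have e1 : n - k - m = j + 2 + r := by omega
  have e2 : k + 1 - m = j + 1 := by omega
  have e3 : n - k = m + j + 2 + r := by omega
  rw [e1, e2] at key
  generalize #(G B k) = a at key ⊢
  generalize #(G B (k + 1)) = b at key ⊢
  rw [e3, show k + 1 = m + j + 1 by omega]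
  -- key : a (j+2+r) ≤ b (j+1); want a (m+j+2+r) ≤ b (m+j+1)
  have hab : a ≤ b := by
    by_contra hlt
    push Not at hlt
    have : b * (j + 1) < a * (j + 2 + r) := by
      calc b * (j + 1) < a * (j + 1) := Nat.mul_lt_mul_of_pos_right hlt (by omega)
        _ ≤ a * (j + 2 + r) := Nat.mul_le_mul_left _ (by omega)
    omega
  have h5 : a * m ≤ b * m := Nat.mul_le_mul_right _ hab
  nlinarith

/-- The completion probability of a uniform row of size `k`, cross-multiplied. -/
theorem step_choose (B : Finset (Finset C)) {k : ℕ} (hk : 2 * (k + 1) ≤ Fintype.card C) :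
    #(G B k) * (Fintype.card C).choose (k + 1) ≤ #(G B (k + 1)) * (Fintype.card C).choose k := by
  have h1 := step B hk
  have h2 : (Fintype.card C).choose (k + 1) * (k + 1) =
      (Fintype.card C).choose k * (Fintype.card C - k) := Nat.choose_succ_right_eq _ _
  have h3 : (#(G B k) * (Fintype.card C).choose (k + 1)) * (k + 1) ≤
      (#(G B (k + 1)) * (Fintype.card C).choose k) * (k + 1) := by
    calc (#(G B k) * (Fintype.card C).choose (k + 1)) * (k + 1)
        = (#(G B k) * (Fintype.card C - k)) * (Fintype.card C).choose k := by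
          rw [mul_assoc, h2]; ring
      _ ≤ (#(G B (k + 1)) * (k + 1)) * (Fintype.card C).choose k := Nat.mul_le_mul_right _ h1
      _ = _ := by ring
  exact Nat.le_of_mul_le_mul_right h3 (by omega)

end Pool.Agent.Q211.Lab
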