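import Pool.Agent.Q211.Lab.Core

/-!
The one-row operator, and the law of the set of the first `t` rows of an i.i.d. sequence.
-/

set_option autoImplicit false
open Finset MeasureTheory ProbabilityTheory
open scoped ENNReal

namespace Pool.Agent.Q211.Lab

variable {C : Type*} [Fintype C] [DecidableEq C]

/-- The one-row operator. -/
noncomputable def A (q : Finset C → ℝ≥0∞) (F : Finset (Finset C) → ℝ≥0∞) :
    Finset (Finset C) → ℝ≥0∞ := fun B => ∑ s, q s * F (insert s B)

theorem A_mono (q : Finset C → ℝ≥0∞) {F F' : Finset (Finset C) → ℝ≥0∞} (h : ∀ B, F B ≤ F' B) :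
    ∀ B, A q F B ≤ A q F' B := fun _ =>
  Finset.sum_le_sum fun _ _ => mul_le_mul_right (h _) _

theorem A_comm (q q' : Finset C → ℝ≥0∞) (F : Finset (Finset C) → ℝ≥0∞) :
    A q (A q' F) = A q' (A q F) := by
  funext B
  simp only [A, Finset.mul_sum]
  rw [Finset.sum_comm]
  refine Finset.sum_congr rfl fun s _ => Finset.sum_congr rfl fun s' _ => ?_
  rw [Finset.insert_comm]; ring

theorem A_iter_mono (q : Finset C → ℝ≥0∞) (t : ℕ) {F F' : Finset (Finset C) → ℝ≥0∞}
    (h : ∀ B, F B ≤ F' B) : ∀ B, (A q)^[t] F B ≤ (A q)^[t] F' B := by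
  induction t with
  | zero => exact h
  | succ t ih =>
    intro B
    rw [Function.iterate_succ_apply', Function.iterate_succ_apply']
    exact A_mono q ih B

theorem A_iter_comm (q q' : Finset C → ℝ≥0∞) (t : ℕ) (F : Finset (Finset C) → ℝ≥0∞) :
    A q ((A q')^[t] F) = (A q')^[t] (A q F) := by
  have h : Function.Commute (A q) (A q') := fun F => A_comm q q' F
  exact (h.iterate_right t) F

theorem A_iter_le {q q' : Finset C → ℝ≥0∞} {F : Finset (Finset C) → ℝ≥0∞}
    (h : ∀ B, A q F B ≤ A q' F B) (t : ℕ) : ∀ B, (A q)^[t] F B ≤ (A q')^[t] F B := by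
  induction t with
  | zero => exact fun B => le_rfl
  | succ t ih =>
    intro B
    calc (A q)^[t + 1] F B = A q ((A q)^[t] F) B := by rw [Function.iterate_succ_apply']
      _ ≤ A q ((A q')^[t] F) B := A_mono q ih B
      _ = (A q')^[t] (A q F) B := by rw [A_iter_comm]
      _ ≤ (A q')^[t] (A q' F) B := A_iter_mono q' t h B
      _ = (A q')^[t + 1] F B := by rw [Function.iterate_succ_apply]

theorem A_iter_sum (q : Finset C → ℝ≥0∞) (t : ℕ) {ι : Type*} (I : Finset ι) (c : ι → ℝ≥0∞)
    (F : ι → Finset (Finset C) → ℝ≥0∞) (B : Finset (Finset C)) :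
    (A q)^[t] (fun B => ∑ i ∈ I, c i * F i B) B = ∑ i ∈ I, c i * (A q)^[t] (F i) B := by
  induction t generalizing F B with
  | zero => rfl
  | succ t ih =>
    rw [Function.iterate_succ_apply]
    have h1 : A q (fun B => ∑ i ∈ I, c i * F i B) = fun B => ∑ i ∈ I, c i * A q (F i) B := by
      funext B
      simp only [A, Finset.mul_sum]
      rw [Finset.sum_comm]
      refine Finset.sum_congr rfl fun i _ => Finset.sum_congr rfl fun s _ => ?_
      ring
    rw [h1, ih]
    refine Finset.sum_congr rfl fun i _ => ?_
    rw [Function.iterate_succ_apply]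

section prob

local instance : MeasurableSpace (Finset C) := ⊤
local instance : MeasurableSpace (Finset (Finset C)) := ⊤
local instance : DiscreteMeasurableSpace (Finset C) := ⟨fun _ => trivial⟩
local instance : DiscreteMeasurableSpace (Finset (Finset C)) := ⟨fun _ => trivial⟩

/-- An i.i.d. sequence of rows with law `q`. -/
structure IsSampling {Ω : Type*} [MeasurableSpace Ω] (μ : Measure Ω) (S : ℕ → Ω → Finset C)
    (q : Finset C → ℝ≥0∞) : Prop where
  meas : ∀ i, Measurable (S i)
  indep : iIndepFun S μ
  law : ∀ i s, μ {ω | S i ω = s} = q s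

theorem rows_succ {Ω : Type*} (S : ℕ → Ω → Finset C) (t : ℕ) (ω : Ω) :
    (range (t + 1)).image (fun i => S i ω) = insert (S t ω) ((range t).image fun i => S i ω) := by
  rw [Finset.range_add_one, Finset.image_insert]

theorem lintegral_rows {Ω : Type*} [MeasurableSpace Ω] {μ : Measure Ω} [IsProbabilityMeasure μ]
    {S : ℕ → Ω → Finset C} {q : Finset C → ℝ≥0∞} (h : IsSampling μ S q) (t : ℕ) :
    ∀ F : Finset (Finset C) → ℝ≥0∞,
      ∫⁻ ω, F ((range t).image fun i => S i ω) ∂μ = (A q)^[t] F ∅ := by
  induction t with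
  | zero => intro F; simp
  | succ t ih =>
    intro F
    have hR : Measurable fun ω => (range t).image fun i => S i ω := by
      have h1 : Measurable fun ω => fun i : ↥(range t) => S i ω :=
        measurable_pi_lambda _ fun i => h.meas i
      have h2 : Measurable fun f : ↥(range t) → Finset C => univ.image f :=
        measurable_of_finite _
      have h3 : (fun ω => (range t).image fun i => S i ω) =
          (fun f : ↥(range t) → Finset C => univ.image f) ∘
            fun ω => fun i : ↥(range t) => S i ω := by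
        funext ω
        ext s
        simp [Finset.mem_image]
      rw [h3]
      exact h2.comp h1
    have hind : IndepFun (fun ω => S t ω) (fun ω => (range t).image fun i => S i ω) μ := by
      have h0 := h.indep.indepFun_finset ({t} : Finset ℕ) (range t) (by simp) h.meas
      have g1 : Measurable fun f : ↥({t} : Finset ℕ) → Finset C =>
          f ⟨t, Finset.mem_singleton_self t⟩ := measurable_pi_apply _
      have g2 : Measurable fun f : ↥(range t) → Finset C => univ.image f :=
        measurable_of_finite _
      have h1 := h0.comp g1 g2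
      have h3 : (fun ω => (range t).image fun i => S i ω) =
          (fun f : ↥(range t) → Finset C => univ.image f) ∘
            fun ω => fun i : ↥(range t) => S i ω := by
        funext ω
        ext s
        simp [Finset.mem_image]
      rw [h3]
      exact h1
    have hsplit : ∀ ω, F ((range (t + 1)).image fun i => S i ω) =
        ∑ s : Finset C, (if S t ω = s then 1 else 0) *
          F (insert s ((range t).image fun i => S i ω)) := by
      intro ω
      rw [rows_succ, Finset.sum_eq_single (S t ω)]
      · simp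
      · intro s _ hs
        rw [if_neg hs.symm, zero_mul]
      · intro h; exact absurd (Finset.mem_univ _) h
    simp_rw [hsplit]
    have m1 : ∀ s : Finset C, Measurable fun ω => (if S t ω = s then (1 : ℝ≥0∞) else 0) := by
      intro s
      have : Measurable fun s' : Finset C => (if s' = s then (1 : ℝ≥0∞) else 0) :=
        measurable_of_finite _
      exact this.comp (h.meas t)
    have m2 : ∀ s : Finset C, Measurable fun ω => F (insert s ((range t).image fun i => S i ω)) := by
      intro s
      have : Measurable fun B : Finset (Finset C) => F (insert s B) := measurable_of_finite _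
      exact this.comp hR
    have hadd := lintegral_finsetSum (μ := μ) univ (f := fun (s : Finset C) ω =>
      (if S t ω = s then (1 : ℝ≥0∞) else 0) * F (insert s ((range t).image fun i => S i ω)))
      fun s _ => (m1 s).mul (m2 s)
    rw [hadd]
    have hprod : ∀ s : Finset C, ∫⁻ ω, (if S t ω = s then (1 : ℝ≥0∞) else 0) *
        F (insert s ((range t).image fun i => S i ω)) ∂μ =
        q s * (A q)^[t] (fun B => F (insert s B)) ∅ := by
      intro s
      have i1 : IndepFun (fun ω => (if S t ω = s then (1 : ℝ≥0∞) else 0))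
          (fun ω => F (insert s ((range t).image fun i => S i ω))) μ := by
        have g1 : Measurable fun s' : Finset C => (if s' = s then (1 : ℝ≥0∞) else 0) :=
          measurable_of_finite _
        have g2 : Measurable fun B : Finset (Finset C) => F (insert s B) := measurable_of_finite _
        exact hind.comp g1 g2
      have := lintegral_mul_eq_lintegral_mul_lintegral_of_indepFun (m1 s) (m2 s) i1
      simp only [Pi.mul_apply] at this
      rw [this, ih (fun B => F (insert s B))]
      congr 1
      have h5 : ∀ ω, (if S t ω = s then (1 : ℝ≥0∞) else 0) =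
          {ω | S t ω = s}.indicator (fun _ => (1 : ℝ≥0∞)) ω := by
        intro ω; simp [Set.indicator_apply]
      simp_rw [h5]
      have hms : MeasurableSet {ω | S t ω = s} :=
        h.meas t (show MeasurableSet ({s} : Set (Finset C)) from trivial)
      rw [lintegral_indicator_const hms, one_mul, h.law]
    rw [Finset.sum_congr rfl fun s _ => hprod s, Function.iterate_succ_apply]
    exact (A_iter_sum q t univ q (fun s B => F (insert s B)) ∅).symm

end prob

/-- The law of a uniform row of size `k`. -/
noncomputable def unif (k : ℕ) (s : Finset C) : ℝ≥0∞ :=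
  if #s = k then ((Fintype.card C).choose k : ℝ≥0∞)⁻¹ else 0

open Classical in
/-- Indicator of separation. -/
noncomputable def ind (B : Finset (Finset C)) : ℝ≥0∞ := if Sep B then 1 else 0

theorem A_unif (k : ℕ) (B : Finset (Finset C)) :
    A (unif k) ind B = (#(G B k) : ℝ≥0∞) * ((Fintype.card C).choose k : ℝ≥0∞)⁻¹ := by
  classical
  have h1 : ∀ s : Finset C, unif k s * ind (insert s B) =
      if s ∈ G B k then ((Fintype.card C).choose k : ℝ≥0∞)⁻¹ else 0 := by
    intro s
    unfold unif ind
    by_cases h1 : #s = k <;> by_cases h2 : Sep (insert s B) <;> simp [mem_G, h1, h2]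
  simp only [A]
  rw [Finset.sum_congr rfl fun s _ => h1 s, ← Finset.sum_filter, Finset.sum_const, nsmul_eq_mul]
  congr 2
  congr 1
  ext s; simp

theorem A_unif_step {k : ℕ} (hk : 2 * (k + 1) ≤ Fintype.card C) (B : Finset (Finset C)) :
    A (unif k) ind B ≤ A (unif (k + 1)) ind B := by
  rw [A_unif, A_unif]
  have h := step_choose B hk
  have c1 : ((Fintype.card C).choose k : ℝ≥0∞) ≠ 0 := by
    exact_mod_cast (Nat.choose_pos (by omega)).ne'
  have c2 : ((Fintype.card C).choose (k + 1) : ℝ≥0∞) ≠ 0 := by
    exact_mod_cast (Nat.choose_pos (by omega)).ne'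
  have c1' : ((Fintype.card C).choose k : ℝ≥0∞) ≠ ⊤ := ENNReal.natCast_ne_top _
  have c2' : ((Fintype.card C).choose (k + 1) : ℝ≥0∞) ≠ ⊤ := ENNReal.natCast_ne_top _
  rw [← div_eq_mul_inv, ← div_eq_mul_inv]
  rw [ENNReal.div_le_iff c1 c1', mul_comm, ← mul_div_assoc, ENNReal.le_div_iff_mul_le (Or.inl c2)
    (Or.inl c2'), mul_comm ((Fintype.card C).choose k : ℝ≥0∞)]
  exact_mod_cast h

theorem A_unif_mono {k₁ k₂ : ℕ} (h : k₁ ≤ k₂) (hk : 2 * k₂ ≤ Fintype.card C)
    (B : Finset (Finset C)) : A (unif k₁) ind B ≤ A (unif k₂) ind B := by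
  induction k₂, h using Nat.le_induction with
  | base => exact le_rfl
  | succ k hk' ih => exact (ih (by omega)).trans (A_unif_step hk B)

/-- The mixture law. -/
noncomputable def mix (p : ℝ≥0∞) (k₁ k₂ : ℕ) (s : Finset C) : ℝ≥0∞ :=
  p * unif k₁ s + (1 - p) * unif k₂ s

theorem A_mix (p : ℝ≥0∞) (k₁ k₂ : ℕ) (B : Finset (Finset C)) :
    A (mix p k₁ k₂) ind B = p * A (unif k₁) ind B + (1 - p) * A (unif k₂) ind B := by
  simp only [A, mix, Finset.mul_sum, ← Finset.sum_add_distrib]
  exact Finset.sum_congr rfl fun s _ => by ring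

theorem mix_ge {p : ℝ≥0∞} (hp : p ≤ 1) {k₁ k₂ : ℕ} (h : k₁ ≤ k₂) (hk : 2 * k₂ ≤ Fintype.card C)
    (B : Finset (Finset C)) : A (unif k₁) ind B ≤ A (mix p k₁ k₂) ind B := by
  rw [A_mix]
  calc A (unif k₁) ind B = (p + (1 - p)) * A (unif k₁) ind B := by
        rw [add_tsub_cancel_of_le hp, one_mul]
    _ = p * A (unif k₁) ind B + (1 - p) * A (unif k₁) ind B := by ring
    _ ≤ _ := add_le_add le_rfl (mul_le_mul_right (A_unif_mono h hk B) _)

theorem mix_le {p : ℝ≥0∞} (hp : p ≤ 1) {k₁ k₂ : ℕ} (h : k₁ ≤ k₂) (hk : 2 * k₂ ≤ Fintype.card C)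
    (B : Finset (Finset C)) : A (mix p k₁ k₂) ind B ≤ A (unif k₂) ind B := by
  rw [A_mix]
  calc p * A (unif k₁) ind B + (1 - p) * A (unif k₂) ind B
      ≤ p * A (unif k₂) ind B + (1 - p) * A (unif k₂) ind B :=
        add_le_add (mul_le_mul_right (A_unif_mono h hk B) _) le_rfl
    _ = (p + (1 - p)) * A (unif k₂) ind B := by ring
    _ = _ := by rw [add_tsub_cancel_of_le hp, one_mul]

end Pool.Agent.Q211.Lab
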